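import Pool.Agent.H18.HIT.Targets

/-!
# (HYP) the components of the preimage of a totally invariant hypersurface
-/

set_option autoImplicit false

open MvPolynomial
open Pool.Agent.H12.ZD (pmap v O Res DenseOrbit NoInv)
open Pool.Agent.H18.HIT

namespace Pool.Agent.H20.HIT

section

variable {N : ℕ} {k : Type} [Field k]

theorem chain (G : Tup N k) (q : Po N k) (j : Fin N) :
    pderiv j (aeval G q) = ∑ l, aeval G (pderiv l q) * pderiv j (G l) := by
  classical
  induction q using MvPolynomial.induction_on with
  | C a =>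
    rw [aeval_C, algebraMap_eq, pderiv_C]
    refine (Finset.sum_eq_zero fun l _ => ?_).symm
    rw [pderiv_C, map_zero, zero_mul]
  | add a b ha hb =>
    rw [map_add, map_add, ha, hb, ← Finset.sum_add_distrib]
    refine Finset.sum_congr rfl fun l _ => ?_
    rw [map_add, map_add, add_mul]
  | mul_X a i h =>
    have h1 : ∀ l, aeval G (pderiv l (a * X i)) * pderiv j (G l) =
        G i * (aeval G (pderiv l a) * pderiv j (G l)) +
          (if l = i then aeval G a * pderiv j (G l) else 0) := by
      intro l
      rw [Derivation.leibniz, smul_eq_mul, smul_eq_mul, map_add, map_mul, map_mul, aeval_X,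
        pderiv_X]
      by_cases hl : l = i
      · subst hl
        rw [Pi.single_eq_same, map_one, if_pos rfl]
        ring
      · rw [Pi.single_eq_of_ne (Ne.symm hl), map_zero, if_neg hl]
        ring
    rw [map_mul, aeval_X, Derivation.leibniz, smul_eq_mul, smul_eq_mul, h]
    simp only [h1]
    rw [Finset.sum_add_distrib, ← Finset.mul_sum, Finset.sum_ite_eq' Finset.univ i,
      if_pos (Finset.mem_univ i)]
    ring

theorem jac_eval (G : Tup N k) (x : Fin N → k) :
    eval x (jac G) = Matrix.det (Matrix.of fun i j => eval x (pderiv j (G i))) := by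
  unfold jac
  rw [RingHom.map_det]
  rfl

theorem deg_pd (s : Fin N) (p : Po N k) (hp : pderiv s p ≠ 0) :
    (pderiv s p).totalDegree + 1 ≤ p.totalDegree := by
  have h1 : 1 ≤ p.totalDegree := by
    by_contra h0
    have h2 : p.totalDegree = 0 := by omega
    rw [totalDegree_eq_zero_iff_eq_C] at h2
    rw [h2, pderiv_C] at hp
    exact hp rfl
  suffices h3 : (pderiv s p).totalDegree ≤ p.totalDegree - 1 by omega
  rw [totalDegree]
  refine Finset.sup_le fun n hn => ?_
  rw [mem_support_iff, coeff_pderiv] at hn
  have h4 : coeff (n + Finsupp.single s 1) p ≠ 0 := fun h5 => hn (by rw [h5]; simp)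
  have h6 := le_totalDegree (mem_support_iff.2 h4)
  rw [Finsupp.sum_add_index' (fun _ => rfl) (fun _ _ _ => rfl), Finsupp.sum_single_index rfl] at h6
  omega

theorem const_of_pd [CharZero k] (f : Po N k) (hp : ∀ s, pderiv s f = 0) :
    f = C (constantCoeff f) := by
  ext n
  rw [coeff_C]
  by_cases hn : (0 : Fin N →₀ ℕ) = n
  · rw [if_pos hn, ← hn]; rfl
  · rw [if_neg hn]
    obtain ⟨s, hs⟩ : ∃ s, n s ≠ 0 := by
      by_contra hcon
      push Not at hcon
      exact hn (Finsupp.ext fun s => (hcon s).symm)
    have h1 := congrArg (coeff (n - Finsupp.single s 1)) (hp s)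
    rw [coeff_pderiv, coeff_zero] at h1
    have h2 : n - Finsupp.single s 1 + Finsupp.single s 1 = n := by
      apply tsub_add_cancel_of_le
      rw [Finsupp.single_le_iff]
      omega
    rw [h2] at h1
    rcases mul_eq_zero.1 h1 with h3 | h3
    · exact h3
    · exfalso
      have : (((((n - Finsupp.single s 1 : Fin N →₀ ℕ) s) + 1 : ℕ)) : k) = 0 := by
        push_cast; exact h3
      exact absurd (Nat.cast_eq_zero.1 this) (by omega)

/-- singular points are mapped to singular points -/
theorem step {G : Tup N k} {W Z : Po N k} (hWZ : aeval G W = W * Z) {x : Fin N → k}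
    (hx : eval x (jac G) ≠ 0) (hW : eval x W = 0)
    (h : eval x Z = 0 ∨ ∀ j, eval x (pderiv j W) = 0) (l : Fin N) :
    eval (pmap G x) (pderiv l W) = 0 := by
  have h1 : ∀ j, ∑ l, eval (pmap G x) (pderiv l W) * eval x (pderiv j (G l)) = 0 := by
    intro j
    have h2 := chain G W j
    rw [hWZ, Derivation.leibniz, smul_eq_mul, smul_eq_mul] at h2
    have h3 := congrArg (eval x) h2
    rw [map_add, map_mul, map_mul, hW, zero_mul, zero_add, map_sum] at h3
    have h4 : ∀ l, eval x (aeval G (pderiv l W) * pderiv j (G l)) =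
        eval (pmap G x) (pderiv l W) * eval x (pderiv j (G l)) := by
      intro l
      rw [map_mul, eval_aeval]
    simp only [h4] at h3
    rw [← h3]
    rcases h with h | h
    · rw [h, zero_mul]
    · rw [h j, mul_zero]
  rw [jac_eval] at hx
  have h2 := Matrix.eq_zero_of_vecMul_eq_zero (v := fun l => eval (pmap G x) (pderiv l W)) hx (by
    funext j
    exact h1 j)
  exact congrFun h2 l

end

theorem pf_HYP : T_HYP := by
  intro N k _ _ G W Z z hz hW hvan hWZ P' hP' hJ hPW hPZ
  have hWv : W ∈ van G z := (hvan W).2 dvd_rfl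
  have h1 : ∀ n l, eval ((pmap G)^[n] z) (pderiv l W) = 0 := by
    intro n
    induction n with
    | zero =>
      intro l
      have h2 := step hWZ hJ hPW (Or.inl hPZ) l
      rw [hP'] at h2
      exact h2
    | succ n ih =>
      intro l
      rw [Function.iterate_succ_apply']
      exact step hWZ (hz n) (hWv n) (Or.inr ih) l
  have h2 : ∀ l, pderiv l W = 0 := by
    intro l
    by_contra hne
    have h3 : W ∣ pderiv l W := (hvan _).1 fun n => h1 n l
    obtain ⟨q, hq⟩ := h3
    have hq0 : q ≠ 0 := by
      rintro rfl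
      rw [mul_zero] at hq
      exact hne hq
    have h4 := deg_pd l W hne
    rw [hq, totalDegree_mul_of_isDomain hW.ne_zero hq0] at h4
    omega
  have h3 := const_of_pd W h2
  have h4 : constantCoeff W ≠ 0 := by
    intro h5
    rw [h5, C_0] at h3
    exact hW.ne_zero h3
  refine hW.not_isUnit ?_
  rw [h3]
  exact (isUnit_iff_ne_zero.2 h4).map C

end Pool.Agent.H20.HIT
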