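import Pool.Agent.H18.HIT.Targets

/-!
# (PCV) the number of preimages of the homogeneous lift
-/

set_option autoImplicit false

open MvPolynomial
open Pool.Agent.H12.ZD (pmap v O Res DenseOrbit NoInv)
open Pool.Agent.H18.HIT

namespace Pool.Agent.H20.HIT

theorem hom_eval {N : ℕ} {k : Type} [Field k] {f : Po N k} {d : ℕ} (hf : f.IsHomogeneous d)
    (t : k) (x : Fin N → k) : eval (fun i => t * x i) f = t ^ d * eval x f := by
  rw [eval_eq', eval_eq', Finset.mul_sum]
  refine Finset.sum_congr rfl fun m hm => ?_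
  have h1 : m.degree = d := by
    have h2 := hf (mem_support_iff.1 hm)
    exact (DFunLike.congr_fun (Finsupp.degree_eq_weight_one (R := ℕ)) m).trans h2
  have h2 : ∏ i, (t * x i) ^ m i = t ^ d * ∏ i, x i ^ m i := by
    simp only [mul_pow]
    rw [Finset.prod_mul_distrib, Finset.prod_pow_eq_pow_sum, ← h1, Finsupp.degree_eq_sum]
  rw [h2]
  ring

theorem pf_PCV : T_PCV := by
  intro N k _ _ _ F d e hN hd hF hcov
  classical
  obtain ⟨c, hc, hcv⟩ := hcov
  let i₀ : Fin N := ⟨0, hN⟩
  refine ⟨c * X i₀, mul_ne_zero hc (X_ne_zero i₀), ?_⟩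
  intro y hy
  rw [map_mul, eval_X] at hy
  have hyc : eval y c ≠ 0 := left_ne_zero_of_mul hy
  have hy0 : y i₀ ≠ 0 := right_ne_zero_of_mul hy
  obtain ⟨S, hS, hSF, hSi⟩ := hcv y hyc
  have hk : NeZero ((d : ℕ) : k) := ⟨by exact_mod_cast (by omega : d ≠ 0)⟩
  have hdn : NeZero d := ⟨by omega⟩
  obtain ⟨ζ, hζ⟩ := HasEnoughRootsOfUnity.exists_primitiveRoot k d
  have hcard : (Polynomial.nthRootsFinset d (1 : k)).card = d := hζ.card_nthRootsFinset
  have hx0 : ∀ x ∈ S, ∃ i, x i ≠ 0 := by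
    intro x hx
    by_contra hcon
    push Not at hcon
    apply hy0
    rw [← hSF x hx]
    have h1 : x = fun i => (0 : k) * x i := by
      funext i
      rw [hcon i, mul_zero]
    change eval x (F i₀) = 0
    rw [h1, hom_eval (hF i₀), zero_pow (by omega), zero_mul]
  refine ⟨((Polynomial.nthRootsFinset d (1 : k)) ×ˢ S).image fun q => fun i => q.1 * q.2 i, ?_, ?_⟩
  · rw [Finset.card_image_of_injOn, Finset.card_product, hcard, hS]
    intro q hq q' hq' h
    rw [Finset.mem_coe, Finset.mem_product, Polynomial.mem_nthRootsFinset (by omega)] at hq hq'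
    have h1 : ∀ i, q.1 * q.2 i = q'.1 * q'.2 i := fun i => congrFun h i
    have hq0 : q'.1 ≠ 0 := by
      intro h0
      rw [h0, zero_pow (by omega)] at hq'
      exact zero_ne_one hq'.1
    have h2 : q'.2 = q.2 := by
      refine hSi q.2 hq.2 q'.2 hq'.2 (q.1 / q'.1) fun i => ?_
      rw [div_mul_eq_mul_div, eq_div_iff hq0, h1 i]
      ring
    obtain ⟨i, hi⟩ := hx0 q.2 hq.2
    have h3 := h1 i
    rw [h2] at h3
    exact Prod.ext (mul_right_cancel₀ hi h3) h2.symm
  · intro x' hx'
    rw [Finset.mem_image] at hx'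
    obtain ⟨q, hq, rfl⟩ := hx'
    rw [Finset.mem_product, Polynomial.mem_nthRootsFinset (by omega)] at hq
    funext i
    change eval (fun i => q.1 * q.2 i) (F i) = y i
    rw [hom_eval (hF i), hq.1, one_mul]
    exact congrFun (hSF q.2 hq.2) i

end Pool.Agent.H20.HIT
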